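import Pool.Agent.U828.KD.LenA
import Pool.Agent.U828.KD.LenB

/-!
# Products of `k` consecutive values of the Liouville function, for all the lengths `k` near almost all values of arbitrary
functions of higher convexity

Half of the trivial bound for the sums `S_k(X)` of the problem, with arbitrary weights, along progressions and on all
intervals, for ALL the lengths `k` near almost all values of an arbitrary function `f` on `{1, …, x}` whose differences of
order `r` are bounded below (or above) by the expected size.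

* Part 1 (bounded lengths are allowed): `k ≤ H` with `H` at least a constant `H₀`, and `x ≥ H ^ (1 / r + η)` points.
* Part 2 (errors saving every power of the logarithm): `k` up to `B N`, `x ≥ N ^ (1 / r + η)` points, families of at most
  `(log N) ^ T` progressions and weights at once.

For `r = 2` these are the strictly convex (or concave) functions. For larger `r` the lengths run through neighbourhoods of
arbitrarily sparse sets; no regularity is assumed besides the sign and the size of the `r`-th differences.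

From Mathlib: `ArithmeticFunction.cardFactors n`: the number of the prime factors of `n` with multiplicity; `fwdDiff 1 f m`:
the difference `f (m + 1) - f m`; `Finset.Ioc Y X`: the integers `n` with `Y < n ≤ X`.

Proof: the energy theorem `Pool.Agent.U828.KD.energy_r` (helper828: an `r`-th derivative test for arbitrary sequences, and
Fejér kernels) shows that arbitrary integers near the values of `f` have nearly minimal additive energy of some order; for
families of small energy the sums with two factors `λ(a n + b) λ(a (n + k) + b)` are small (starting files: for part 1 the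
averaged Chowla theorem of Matomäki, Radziwiłł and Tao in the form of `Pool.Agent.TH823.MRS`, used in
`Pool.Agent.TH893.CL.fam_gen`; for part 2 Davenport's theorem and `Pool.Agent.H373R2.T7.few_e`); the passage to the
products of `k` consecutive values is the identity `P(n) P(n + 1) = λ(n) λ(n + k)` for `P(n) = λ(n) ⋯ λ(n + k - 1)`
(`Pool.Agent.TH893.CL.twist_le`, starting files).
-/

set_option autoImplicit false

namespace Pool.Agent.Results.MP_a14ce1_nt.HigherConvexLengths

open Finset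

/-- The product `λ(a n + b) λ(a (n + 1) + b) ... λ(a (n + k - 1) + b)` of the values of the Liouville function at
`k` consecutive terms of a progression. For `a = 1` and `b = 0` it is `λ(n) λ(n + 1) ... λ(n + k - 1)`. -/
noncomputable def prodL (a b k n : ℕ) : ℝ := ∏ j ∈ range k, (-1 : ℝ) ^ ArithmeticFunction.cardFactors (a * (n + j) + b)

/-- On every interval `(Y, X]` with `X ≤ M` the sum of the products of `k` consecutive values with the weights `ξ` is at
most half of the length of the interval, up to `E`. -/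
def Half (a b M : ℕ) (E : ℝ) (ξ : ℕ → ℂ) (k : ℕ) : Prop :=
  ∀ Y X : ℕ, Y ≤ X → X ≤ M → ‖∑ n ∈ Ioc Y X, ξ n * (prodL a b k n : ℂ)‖ ≤ ((X : ℝ) - Y) / 2 + E

/-- The differences of order `r` of `f` on `{1, ..., x}` are all at least `κ`, or all at most `-κ`. -/
def Bent (r x : ℕ) (f : ℕ → ℝ) (κ : ℝ) : Prop :=
  (∀ m, 1 ≤ m → m + r ≤ x → κ ≤ (fwdDiff 1)^[r] f m) ∨ (∀ m, 1 ≤ m → m + r ≤ x → (fwdDiff 1)^[r] f m ≤ -κ)

open Classical in
/-- The number of the `m ≤ x` with the property `E`. -/
noncomputable def num (x : ℕ) (E : ℕ → Prop) : ℕ := ((Icc 1 x).filter E).card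

lemma prodL_eq (a b k n : ℕ) : prodL a b k n = Pool.Agent.TH893.CL.Pk (Pool.Agent.TH893.CL.lr a b) k n := rfl

/-- Let `r ≥ 2` and `η > 0` be fixed.

1. Let `a ≥ 1`, `L ≥ 1` and `ε > 0`. There are `H₀` and `N₀` such that for all `N ≥ N₀`, all `H₀ ≤ H ≤ N`, all `b ≤ N`, all
   `x ≥ H ^ (1 / r + η)`, ALL functions `f` with values in `[-H, H]` on `{1, ..., x}` whose differences of order `r` are all
   at least `H / (L x ^ r)`, or all at most the negative of this number, and all weights `ξ : ℕ → ℂ` bounded by `1`: for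
   all but at most `ε x` of the `m ≤ x`, ALL the lengths `1 ≤ k ≤ H` with `|k - f(m)| ≤ L` satisfy
   `|∑_{Y < n ≤ X} ξ(n) λ(a n + b) ... λ(a (n + k - 1) + b)| ≤ (X - Y) / 2 + ε N` for all `Y ≤ X ≤ N`.
2. Let `A`, `B`, `C`, `T`, `U` be given, and let `N` be large. For all `x ≥ N ^ (1 / r + η)`, ALL functions `f` with values
   in `[-B N, B N]` on `{1, ..., x}` whose differences of order `r` are all at least `N / (x ^ r (log N) ^ C)`, or all at
   most the negative of this number, and all families of at most `(log N) ^ T` progressions and weights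
   (`1 ≤ a l ≤ A`, `b l ≤ B N`, `ξ l : ℕ → ℂ` bounded by `1`): for all but at most `x / (log N) ^ U` of the `m ≤ x`, ALL the
   lengths `k` with `|k - f(m)| ≤ (log N) ^ C` satisfy, for all `l` and all `Y ≤ X ≤ B N`,
   `|∑_{Y < n ≤ X} ξ_l(n) λ(a_l n + b_l) ... λ(a_l (n + k - 1) + b_l)| ≤ (X - Y) / 2 + N / (log N) ^ U`. -/
theorem result (r : ℕ) (hr : 2 ≤ r) (η : ℝ) (hη : 0 < η) :
    (∀ a L : ℕ, 1 ≤ a → 1 ≤ L → ∀ ε : ℝ, 0 < ε → ∃ H₀ N₀ : ℕ, ∀ N H : ℕ, N₀ ≤ N → H₀ ≤ H → H ≤ N → ∀ b : ℕ, b ≤ N →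
      ∀ x : ℕ, (H : ℝ) ^ (1 / (r : ℝ) + η) ≤ x → ∀ f : ℕ → ℝ, (∀ m ∈ Icc 1 x, |f m| ≤ H) →
      Bent r x f ((H : ℝ) / (L * (x : ℝ) ^ r)) → ∀ ξ : ℕ → ℂ, (∀ n, ‖ξ n‖ ≤ 1) →
      (num x (fun m => ∃ k : ℕ, 1 ≤ k ∧ k ≤ H ∧ |(k : ℝ) - f m| ≤ L ∧ ¬ Half a b N (ε * N) ξ k) : ℝ) ≤ ε * x) ∧
    (∀ A B C T U : ℕ, ∃ N₀ : ℕ, ∀ N : ℕ, N₀ ≤ N → ∀ x : ℕ, (N : ℝ) ^ (1 / (r : ℝ) + η) ≤ x →
      ∀ f : ℕ → ℝ, (∀ m ∈ Icc 1 x, |f m| ≤ B * N) → Bent r x f (N / ((x : ℝ) ^ r * Real.log N ^ C)) →
      ∀ L : ℕ, (L : ℝ) ≤ Real.log N ^ T → ∀ a b : Fin L → ℕ, (∀ l, 1 ≤ a l ∧ a l ≤ A ∧ b l ≤ B * N) →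
      ∀ ξ : Fin L → ℕ → ℂ, (∀ l n, ‖ξ l n‖ ≤ 1) →
      (num x (fun m => ∃ k : ℕ, |(k : ℝ) - f m| ≤ Real.log N ^ C ∧
        ∃ l, ¬ Half (a l) (b l) (B * N) (N / Real.log N ^ U) (ξ l) k) : ℝ) ≤ x / Real.log N ^ U) := by
  classical
  refine ⟨?_, ?_⟩
  · intro a L ha hL ε hε
    obtain ⟨H₀, N₀, h⟩ := Pool.Agent.U828.KD.len_bdd r hr a ha L hL ε η hε hη
    refine ⟨H₀, N₀, fun N H hN hH hHN b hb x hx f hf hbent ξ hξ => ?_⟩
    unfold num
    apply h N H hN hH hHN b hb x hx f hf hbent ξ hξ _ (filter_subset _ _)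
    intro m hm
    exact (mem_filter.1 hm).2
  · intro A B C T U
    obtain ⟨N₀, h⟩ := Pool.Agent.U828.KD.len_log r hr A ((A + 1) * B) C T U η hη
    refine ⟨N₀, fun N hN x hx f hf hbent L hL a b hab ξ hξ => ?_⟩
    have hBN : (B : ℝ) * N ≤ (((A + 1) * B : ℕ) : ℝ) * N := by
      apply mul_le_mul_of_nonneg_right _ (Nat.cast_nonneg _)
      exact_mod_cast Nat.le_mul_of_pos_left _ (by omega)
    have hBN' : B * N ≤ (A + 1) * B * N := by
      apply Nat.mul_le_mul_right
      exact Nat.le_mul_of_pos_left _ (by omega)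
    unfold num
    apply h N hN x hx f (fun m hm => (hf m hm).trans hBN) hbent L hL a b
      (fun l => ⟨(hab l).1, (hab l).2.1, (hab l).2.2.trans hBN'⟩) ξ hξ _ (filter_subset _ _)
    intro m hm
    obtain ⟨k, hk, l, hbad⟩ := (mem_filter.1 hm).2
    unfold Half at hbad
    push Not at hbad
    obtain ⟨Y, X, hYX, hX, hb2⟩ := hbad
    refine ⟨k, hk, l, Y, X, hYX, ?_, hb2⟩
    calc a l * X ≤ (A + 1) * (B * N) := Nat.mul_le_mul (by have := (hab l).2.1; omega) hX
      _ = _ := by ring

end Pool.Agent.Results.MP_a14ce1_nt.HigherConvexLengths
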