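import Pool.Agent.U847.FE

/-!
# Products of `k` and of `k + 2` consecutive values of the Liouville function, for EVERY `k`, also in short intervals

Let `S_k(x)` be the sum of the products of `k` consecutive values of the Liouville function (along a residue class). The
two point theorem at almost all scales gives `|S_k(x)| ≤ (1/2 + ε) x` for every fixed `k`, because
`P_k(n) P_k(n + 1) = λ(n) λ(n + k)`. Here the sums of two neighbouring lengths of the same parity are treated together:
at almost all scales (and, for the logarithmic averages, at all scales)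

`|S_k| + |S_{k+2}| ≤ (5/6 + ε) x`,

so that at most one of any two neighbouring even lengths can be near the bound `1/2`: one of them is at most `5/12`.
The same holds in short intervals, and even in windows of bounded length `H`: the mean over `n` of
`|∑_{h<H} (P_k(n + h) ± P_{k+2}(n + h))|` is at most `(5/6 + 4/H + ε) H` (the trivial bound is `2 H`).

Proof. The products `P_k` and `P_{k+2}` at `n`, `n + 1`, `n + 2` are functions of the seven signs `P_k(n)`, `λ(n)`,
`λ(n+1)`, `λ(n+k)`, ..., `λ(n+k+3)`. For all the `128` values of these signs a certain combination of the six products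
with the `14` products of two of the six values of `λ` is at most `10/12` (this is a dual solution of a linear program);
the sums of the products of two values of `λ` are small by the two point theorem at almost all scales
(`Pool.Agent.R318.MU.all_exc`, starting files), and the six products have the sums `S_k` and `S_{k+2}` up to boundary
terms. The signs of the two sums are adjusted by a twist of period four.
-/

set_option autoImplicit false

namespace Pool.Agent.Results.MP_a14ce1_nt.NeighbouringLengths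

open Finset Filter Topology

/-- The sum over the `1 ≤ n ≤ x` in the residue class `c` modulo `d` of the products `λ(n) λ(n + d) ... λ(n + (k - 1) d)`
of the values of the Liouville function at `k` consecutive members of this class. For `d = 1`, `c = 0` it is `S_k(x)`. -/
noncomputable def S (d c k x : ℕ) : ℝ :=
  ∑ n ∈ (Icc 1 x).filter (fun n => n % d = c), ∏ i ∈ range k, (-1 : ℝ) ^ ArithmeticFunction.cardFactors (n + i * d)

/-- The same sum with the weights `1 / n`. -/
noncomputable def L (d c k x : ℕ) : ℝ :=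
  ∑ n ∈ (Icc 1 x).filter (fun n => n % d = c), (∏ i ∈ range k, (-1 : ℝ) ^ ArithmeticFunction.cardFactors (n + i * d)) / n

/-- The sum over the window `n, n + d, ..., n + (H - 1) d` of the products `P_k` of the values of the Liouville function
at `k` consecutive terms of the progression with difference `d`. For `d = 1` it is the contribution
`S_k(n + H - 1) - S_k(n - 1)` of a short interval. -/
noncomputable def D (d k H n : ℕ) : ℝ :=
  ∑ h ∈ range H, ∏ i ∈ range k, (-1 : ℝ) ^ ArithmeticFunction.cardFactors (n + h * d + i * d)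

open Classical in
/-- There is one set `𝓔` of positive integers of logarithmic density zero (the exceptional scales) such that for EVERY
length `k ≥ 2`, every difference `d ≥ 1` and every `ε > 0`:

(1) for every class `c < d` (for example `d = 1`, `c = 0`), for all large `N` outside `𝓔`:
`|S_k(N)| + |S_{k+2}(N)| ≤ (5/6 + ε) N / d`, and for ALL large `N` the same with the weights `1/n`:
`|L_k(N)| + |L_{k+2}(N)| ≤ (5/6 + ε) (log N) / d`;

(2) in windows of any length `H ≥ 1`, for every modulus `q ≥ 1`, class `c < q` and sign `τ = ±1`: for all large `N`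
outside `𝓔` the sum of `|D_k(n) + τ D_{k+2}(n)|` over the `n ≤ N`, `n = c` modulo `q`, is at most
`(5/6 + 4/H + ε) H N / q`, and for ALL large `N` the same with the weights `1/n` and `log N` in place of `N`. -/
theorem result : ∃ 𝓔 : Set ℕ,
    Tendsto (fun X : ℕ => (∑ N ∈ Icc 1 X, if N ∈ 𝓔 then (1 : ℝ) / N else 0) / Real.log X) atTop (𝓝 0) ∧
    ∀ k d : ℕ, 2 ≤ k → 1 ≤ d → ∀ ε : ℝ, 0 < ε →
      (∀ c : ℕ, c < d →
        (∃ N₀ : ℕ, ∀ N : ℕ, N₀ ≤ N → N ∉ 𝓔 → |S d c k N| + |S d c (k + 2) N| ≤ (5 / 6 + ε) * (N / d)) ∧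
        ∃ N₀ : ℕ, ∀ N : ℕ, N₀ ≤ N → |L d c k N| + |L d c (k + 2) N| ≤ (5 / 6 + ε) * (Real.log N / d)) ∧
      ∀ q c H : ℕ, c < q → 1 ≤ H → ∀ τ : ℝ, (τ = 1 ∨ τ = -1) →
        (∃ N₀ : ℕ, ∀ N : ℕ, N₀ ≤ N → N ∉ 𝓔 → ∑ n ∈ (Icc 1 N).filter (fun n => n % q = c),
          |D d k H n + τ * D d (k + 2) H n| ≤ (5 / 6 + 4 / H + ε) * (H * (N / q))) ∧
        ∃ N₀ : ℕ, ∀ N : ℕ, N₀ ≤ N → ∑ n ∈ (Icc 1 N).filter (fun n => n % q = c),
          |D d k H n + τ * D d (k + 2) H n| / n ≤ (5 / 6 + 4 / H + ε) * (H * (Real.log N / q)) := by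
  obtain ⟨E, hE1, hE2⟩ := Pool.Agent.R318.MU.all_exc
  have hTwo : Pool.Agent.U847.FA.Two Pool.Agent.R509.TT.l E := fun q c u w hq huw δ hδ =>
    Pool.Agent.U847.NL.two hE2 hq c u w huw δ hδ
  refine ⟨E, hE1, fun k d hk hd ε hε => ⟨fun c _ => ?_, fun q c H hc hH τ hτ =>
    ⟨Pool.Agent.U847.FA.pair_loc Pool.Agent.R509.TT.l_pm hTwo k d q c H hk hd (by omega) hH τ hτ ε hε,
      Pool.Agent.U847.FA.pair_log Pool.Agent.R509.TT.l_pm hE1 hTwo k d q c H hk hd (by omega) hH τ hτ ε hε⟩⟩⟩
  have hd0 : (0 : ℝ) < d := by exact_mod_cast hd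
  have hA : ∀ ε : ℝ, 0 < ε → ∃ N₀ : ℕ, ∀ N : ℕ, N₀ ≤ N → N ∉ E →
      |S d c k N| + |S d c (k + 2) N| ≤ (5 / 6 + ε) * (N / d) := by
    intro ε hε
    obtain ⟨N₀, h⟩ := Pool.Agent.U847.NL.pair hE2 k d c hk hd (ε / (2 * d)) (by positivity)
    obtain ⟨M, hM⟩ := exists_nat_ge (10 * (d : ℝ) / ε)
    refine ⟨N₀ + M, fun N hN hNE => ?_⟩
    have h1 := h N (by omega) hNE
    have h2 := Pool.Agent.U847.NL.S_T d c k N
    have h3 := Pool.Agent.U847.NL.S_T d c (k + 2) N
    have h4 := Pool.Agent.U847.NL.T_one hd c N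
    have h5 : (M : ℝ) ≤ N := by exact_mod_cast (by omega : M ≤ N)
    have h6 : 10 * (d : ℝ) / ε ≤ N := hM.trans h5
    rw [div_le_iff₀ hε] at h6
    have h7 : 5 ≤ ε / (2 * d) * N := by
      rw [div_mul_eq_mul_div, le_div_iff₀ (by positivity)]
      linarith
    have h8 : (5 / 6 + ε) * ((N : ℝ) / d) = 5 / 6 * (N / d) + ε / (2 * d) * N + ε / (2 * d) * N := by
      field_simp
      ring
    have e1 : S d c k N = Pool.Agent.U847.NL.S d c k N := rfl
    have e2 : S d c (k + 2) N = Pool.Agent.U847.NL.S d c (k + 2) N := rfl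
    rw [e1, e2, h8]
    have h9 := abs_sub_abs_le_abs_sub (Pool.Agent.U847.NL.S d c k N)
      (Pool.Agent.U847.NL.T (Pool.Agent.U847.NL.cls d c) (Pool.Agent.U847.NL.P d k) N)
    have h10 := abs_sub_abs_le_abs_sub (Pool.Agent.U847.NL.S d c (k + 2) N)
      (Pool.Agent.U847.NL.T (Pool.Agent.U847.NL.cls d c) (Pool.Agent.U847.NL.P d (k + 2)) N)
    linarith
  refine ⟨hA ε hε, ?_⟩
  obtain ⟨N₀, h0⟩ := hA (ε / 2) (by positivity)
  obtain ⟨N₁, h1⟩ := Pool.Agent.U847.NL.log_bound hE1 (fun N => |S d c k N| + |S d c (k + 2) N|)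
    (fun N => by
      have e1 := Pool.Agent.U847.NL.S_le d c k N
      have e2 := Pool.Agent.U847.NL.S_le d c (k + 2) N
      change |Pool.Agent.U847.NL.S d c k N| + |Pool.Agent.U847.NL.S d c (k + 2) N| ≤ 2 * N
      linarith) ((5 / 6 + ε / 2) / d) (ε / (2 * d)) (by positivity) (by positivity)
    ⟨N₀, fun N hN hNE => by
      refine (h0 N hN hNE).trans (le_of_eq ?_)
      field_simp⟩
  refine ⟨N₁, fun X hX => ?_⟩
  have h2 := h1 X hX
  have h3 : ∀ k : ℕ, |L d c k X| ≤ ∑ N ∈ Icc 1 X, |S d c k N| / (N * (N + 1)) + 1 := by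
    intro k
    have e1 : L d c k X = ∑ n ∈ Icc 1 X, (Pool.Agent.U847.NL.cls d c n * Pool.Agent.U847.NL.P d k n) / n :=
      Pool.Agent.U847.NL.L_eq d c k X
    have e2 : ∀ N, S d c k N = ∑ n ∈ Icc 1 N, (Pool.Agent.U847.NL.cls d c n * Pool.Agent.U847.NL.P d k n) :=
      Pool.Agent.U847.NL.S_eq d c k
    rw [e1]
    simp only [e2]
    exact Pool.Agent.U847.NL.log_parts_le _ (Pool.Agent.U847.NL.cP_le d c k) X
  have h4 := h3 k
  have h5 := h3 (k + 2)
  have h6 : ∑ N ∈ Icc 1 X, (|S d c k N| + |S d c (k + 2) N|) / ((N : ℝ) * (N + 1)) =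
      ∑ N ∈ Icc 1 X, |S d c k N| / (N * (N + 1)) + ∑ N ∈ Icc 1 X, |S d c (k + 2) N| / (N * (N + 1)) := by
    rw [← sum_add_distrib]
    apply sum_congr rfl
    intro N _
    rw [add_div]
  rw [h6] at h2
  have h7 : ((5 / 6 + ε / 2) / d + ε / (2 * d)) * Real.log X = (5 / 6 + ε) * (Real.log X / d) := by
    field_simp
    ring
  rw [h7] at h2
  linarith

end Pool.Agent.Results.MP_a14ce1_nt.NeighbouringLengths
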