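import Pool.Agent.U488.CW.Fin

/-!
# Integer windows, pairs `(λ(an+b), λ(cn+d))` and Beatty coins for the Liouville function, at almost all scales

Let `α_1, …, α_r > 0` be real numbers such that no `α_i` is in the rational span of `1` and of the other ones (for instance
`1, α_1, …, α_r` linearly independent over `ℚ`), `β_i` real. The values `λ(⌊α_1 n + β_1⌋), …, λ(⌊α_r n + β_r⌋)` are called the
coins; `C_e` is the event that they have the prescribed signs `e_1, …, e_r`.

There is ONE set `𝓔` of scales, of logarithmic density zero, such that as `N → ∞` outside `𝓔`: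

(1) for every finite family of integer forms `a_j n + b_j` the coins are fair and independent of the whole pattern of the values
`λ(a_j n + b_j)`;

(2) for two integer forms which are not proportional each of the `2 ^ (r + 2)` sign patterns of
`λ(a n + b), λ(a' n + b'), λ(⌊α_1 n + β_1⌋), …, λ(⌊α_r n + β_r⌋)` has the frequency `2 ^ (-(r + 2))` (the two point theorem of Tao and of
Tao and Teräväinen at almost all scales, together with arbitrarily many further values of `λ`); for instance
`∑_{n ≤ N} λ(n) λ(n+1) λ(⌊α_1 n⌋) ⋯ λ(⌊α_r n⌋) = o(N)`;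

(3) for every `k ≥ 2` the sums `S`, `S'` of the products of `k` and of `k + 2` consecutive values over the `n ≤ N` in the event
`C_e` satisfy `|S| + |S'| ≤ (5/6 + ε) N / 2 ^ r`.

(4) (real windows) For windows at `⌊a_j n + b_j⌋` with arbitrary real `a_j > 0`, `b_j ≥ 0`, arbitrary multiplicative functions
`g_j` with the values `±1` there, and coins as in `Indep'` below, the coins are fair and independent of all products of at
most `h` consecutive values in the windows, in the mean over the scales, uniformly in the functions `g_j`.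

(4) was the hand-in `CoinsAndWindows` of helper345. (1) follows from it with a diagonal argument; (2) uses in addition the two
point theorem at almost all scales of the library (`Pool.Agent.Y842.EL.one_set`), and (3) the inequality for neighbouring
lengths (`Pool.Agent.U847.NL.pair`).
-/

set_option autoImplicit false

namespace Pool.Agent.Results.MP_a14ce1_nt.PairsAndCoins

open Finset Filter Topology

/-- the Liouville function, with the values `±1` (the units of `ℤ`) -/
def liouville (n : ℕ) : ℤˣ := (-1) ^ ArithmeticFunction.cardFactors n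

/-- multiplicative functions with the values `±1`; `g 0` is arbitrary -/
def SignMul (g : ℕ → ℤˣ) : Prop := g 1 = 1 ∧ ∀ m n : ℕ, Nat.Coprime m n → g (m * n) = g m * g n

/-- the product of `k` consecutive values -/
def consecutive (g : ℕ → ℤˣ) (k n : ℕ) : ℤˣ := ∏ i ∈ range k, g (n + i)

/-- the point `⌊a n + b⌋` (and `0` if `a n + b < 0`) -/
noncomputable def point (a b : ℝ) (n : ℕ) : ℕ := ⌊a * (n : ℝ) + b⌋₊

open Classical in
/-- the proportion of the `1 ≤ n ≤ N` with the property `E` -/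
noncomputable def frequency (N : ℕ) (E : ℕ → Prop) : ℝ := (((Icc 1 N).filter E).card : ℝ) / N

/-- the coins show the signs `e` -/
def Coins {r : ℕ} (α β : Fin r → ℝ) (e : Fin r → ℤˣ) (n : ℕ) : Prop := ∀ i, liouville (point (α i) (β i) n) = e i

/-- no `α_i` is in the rational span of `1` and the other ones -/
def Indep {r : ℕ} (α : Fin r → ℝ) : Prop := ∀ i, α i ∉ Submodule.span ℚ (insert (1 : ℝ) (α '' {i}ᶜ))

/-- the slopes of all points different from the coin number `i` -/
def others {r s : ℕ} (α : Fin r → ℝ) (a : Fin s → ℝ) (i : Fin r) : Set ℝ := α '' {i}ᶜ ∪ Set.range a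

open Classical in
/-- the sum of the products of `k` consecutive values of the Liouville function over the `1 ≤ n ≤ N` for which the coins show
the signs `e` -/
noncomputable def coinSum {r : ℕ} (α β : Fin r → ℝ) (e : Fin r → ℤˣ) (k N : ℕ) : ℝ :=
  ∑ n ∈ (Icc 1 N).filter (Coins α β e), ∏ i ∈ range k, (-1 : ℝ) ^ ArithmeticFunction.cardFactors (n + i)

open Classical in
/-- **Theorem.** (I) Let `α_i > 0`, `β_i` real (`i ≤ r`), no `α_i` in the rational span of `1` and the other ones. There is a set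
`𝓔` of positive integers of logarithmic density zero such that for every `ε > 0`, for all large `N` outside `𝓔`: (1) for integer
forms `a_j n + b_j`, `a_j ≥ 1`, `b_j ≥ 0`, and signs `c_j`, `e_i` the frequency of the `n ≤ N` with `λ(a_j n + b_j) = c_j` for
all `j` and `λ(⌊α_i n + β_i⌋) = e_i` for all `i` differs from `2 ^ (-r)` times the frequency of the `n ≤ N` with
`λ(a_j n + b_j) = c_j` for all `j` by at most `ε`; (2) for `a b' ≠ a' b` all the `2 ^ (r + 2)` sign patterns of `λ(a n + b)`,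
`λ(a' n + b')` and the `r` coins have a frequency in `[2 ^ (-(r + 2)) - ε, 2 ^ (-(r + 2)) + ε]`; (3) for `k ≥ 2` the sums over the
`n ≤ N` for which the coins show given signs of the products of `k` and of `k + 2` consecutive values of `λ` have absolute
values with sum at most `(5/6 + ε) N / 2 ^ r`. (II) Real windows, see the header, (4). -/
theorem result :
    (∀ (r : ℕ) (α β : Fin r → ℝ), (∀ i, 0 < α i) → Indep α → ∃ 𝓔 : Set ℕ,
      Tendsto (fun X : ℕ => (∑ N ∈ Icc 1 X, if N ∈ 𝓔 then (1 : ℝ) / N else 0) / Real.log X) atTop (𝓝 0) ∧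
      (∀ (s : ℕ) (a b : Fin s → ℕ), (∀ j, 1 ≤ a j) → ∀ (e : Fin r → ℤˣ) (c : Fin s → ℤˣ) (ε : ℝ), 0 < ε →
        ∃ N₀ : ℕ, ∀ N : ℕ, N₀ ≤ N → N ∉ 𝓔 →
          |frequency N (fun n => Coins α β e n ∧ ∀ j, liouville (a j * n + b j) = c j) -
            1 / 2 ^ r * frequency N (fun n => ∀ j, liouville (a j * n + b j) = c j)| ≤ ε) ∧
      (∀ a b a' b' : ℕ, 1 ≤ a → 1 ≤ a' → a * b' ≠ a' * b → ∀ (u v : ℤˣ) (e : Fin r → ℤˣ) (ε : ℝ), 0 < ε →
        ∃ N₀ : ℕ, ∀ N : ℕ, N₀ ≤ N → N ∉ 𝓔 →
          |frequency N (fun n => liouville (a * n + b) = u ∧ liouville (a' * n + b') = v ∧ Coins α β e n) -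
            1 / 2 ^ (r + 2)| ≤ ε) ∧
      (∀ k : ℕ, 2 ≤ k → ∀ (e : Fin r → ℤˣ) (ε : ℝ), 0 < ε → ∃ N₀ : ℕ, ∀ N : ℕ, N₀ ≤ N → N ∉ 𝓔 →
        |coinSum α β e k N| + |coinSum α β e (k + 2) N| ≤ (5 / 6 + ε) * (N / 2 ^ r))) ∧
    (∀ (r s h : ℕ) (α β : Fin r → ℝ) (a b : Fin s → ℝ), (∀ i, 0 < α i) → (∀ j, 0 < a j) → (∀ j, 0 ≤ b j) →
      (∀ i, α i ∉ Submodule.span ℚ (insert (1 : ℝ) (others α a i)) ∨
        (α i = 1 ∧ β i = 0 ∧ (1 : ℝ) ∉ Submodule.span ℚ (others α a i))) →
      ∀ ε : ℝ, 0 < ε → ∃ X₀ : ℕ, ∀ X : ℕ, X₀ ≤ X → ∀ g : Fin s → ℕ → ℤˣ, (∀ j, SignMul (g j)) →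
        ∀ (e : Fin r → ℤˣ) (c : Fin s → ℕ → ℤˣ),
          ∑ N ∈ Icc 1 X, (1 / (N : ℝ)) *
            |frequency N (fun n => Coins α β e n ∧
                ∀ j, ∀ k ∈ Icc 1 h, consecutive (g j) k (point (a j) (b j) n) = c j k) -
              1 / 2 ^ r *
                frequency N (fun n => ∀ j, ∀ k ∈ Icc 1 h, consecutive (g j) k (point (a j) (b j) n) = c j k)| ≤
            ε * Real.log X) := by
  refine ⟨fun r α β hα hind => ?_, fun r s h α β a b hα ha hb hi ε hε =>
    Pool.Agent.U488.CW.coins_windows h α β a b hα ha hb hi ε hε⟩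
  obtain ⟨E₁, hE₁, h1⟩ := Pool.Agent.U488.CW.one_exc α β hα hind
  obtain ⟨E₂, hE₂, h2⟩ := Pool.Agent.Y842.EL.one_set
  obtain ⟨E₃, hE₃, h3⟩ := Pool.Agent.R318.MU.all_exc
  have hJ : Pool.Agent.U488.CW.Joint α β (E₁ ∪ (E₂ ∪ E₃)) := by
    intro s a b ha e c ε hε
    obtain ⟨N₀, h⟩ := h1 s a b ha e c ε hε
    exact ⟨N₀, fun N hN hNE => h N hN fun h' => hNE (Or.inl h')⟩
  refine ⟨E₁ ∪ (E₂ ∪ E₃), Pool.Agent.Y842.EL.LZ_union hE₁ (Pool.Agent.Y842.EL.LZ_union hE₂ hE₃), ?_, ?_, ?_⟩
  · intro s a b ha e c ε hε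
    obtain ⟨N₀, h⟩ := hJ s a b ha e c ε hε
    refine ⟨N₀, fun N hN hNE => ?_⟩
    have h4 := h N hN hNE
    have h5 : (fun n => Pool.Agent.U488.CW.pat a b n = c) = fun n => ∀ j, liouville (a j * n + b j) = c j :=
      funext fun n => propext funext_iff
    have h6 : (fun n => Pool.Agent.U488.CW.Coins α β e n ∧ Pool.Agent.U488.CW.pat a b n = c) =
        fun n => Coins α β e n ∧ ∀ j, liouville (a j * n + b j) = c j :=
      funext fun n => propext (and_congr Iff.rfl funext_iff)
    rw [h5, h6] at h4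
    exact h4
  · intro a b a' b' ha ha' hne u v e ε hε
    exact Pool.Agent.U488.CW.pairs_coins hJ h2 (fun x hx => Or.inr (Or.inl hx)) a b a' b' ha ha' hne u v e ε hε
  · intro k hk e ε hε
    exact Pool.Agent.U488.CW.two_lengths hJ h3 (fun x hx => Or.inr (Or.inr hx)) k hk e ε hε

end Pool.Agent.Results.MP_a14ce1_nt.PairsAndCoins
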