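import Pool.Agent.U108.SW.F

set_option autoImplicit false

/-!
# Products of the Liouville function over blocks of consecutive integers whose lengths lie in sparse sets in BOUNDED ranges

Half of the trivial bound for `∑ λ(n) λ(n + 1) ⋯ λ(n + K - 1)`, and for the products over several blocks of consecutive terms of
progressions, for almost all `K` in sparse sets in ranges which do not grow with the number `N` of the terms of the sum: `K` is any
integer at a distance of at most `B` from a value `F(u)` of a polynomial `F` of degree `d ≥ 2` in any number of variables, where the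
coordinates of `u` have `k` digits in base `b`, each digit in an arbitrary set of at least two digits, depending on the place and the
coordinate; `u` runs through a part of positive proportion of this box. The number `k` of the digits only has to be at least a constant,
whatever `N` is, and the number of the points may be less than an arbitrarily small power of the range.

Part (1): for EVERY large `N`, and all `u` outside a proportion `ε` of the box (depending on `N`). Part (2) is about FIXED lengths: there
is one exceptional set, of proportion `ε`, such that for all `u` outside of it the bound holds for the `N ≤ R` with the exception of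
`ε R` integers, for arbitrarily large `R` (the same `R` for all `u`); in particular for a set of integers `N` of upper density at least
`1 - ε`.

Method (new, `Pool.Agent.U108`): by a multilinear inequality of Weyl type for disjoint windows of digits the values `F(u)` have
an additive energy of high order which is minimal UP TO A CONSTANT (`U108.DP.poly_energy`). This is what is needed in
ranges so short, in the theorem `TH823.MRS.gen` of the starting files on families of shifts of minimal energy, which rests on
the theorem of Matomäki, Radziwiłł and Tao on exponential sums in almost all short intervals. The passage to products over blocks: the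
product `P(n)` over the blocks `[h_i, e_i)` satisfies `P(n) P(n + 1) = ∏ λ(n + h_i) λ(n + e_i)` (`Pool.Agent.TH893.CL.Twist` in
the starting files). Part (2) follows from part (1) by averaging over `N` and the pigeonhole principle (`U108.SW.freq_of`).

Definitions used:
* from Mathlib: `ArithmeticFunction.cardFactors n`: the number of the prime factors of `n` with multiplicity;
* from `Pool.Agent.TH872.GQ` (starting files): `S b E k`: the integers `0 ≤ n < b ^ k` whose `i`-th digit in base `b` lies
  in `E i`, for all `i < k`;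
* from `Pool.Agent.U108.DP`: `Bo b k D`: the tuples `n` of natural numbers with `n j ∈ S b (D j) k` for all `j`;
  `val F n`: the value of the polynomial `F` at the tuple `n`.
-/

namespace Pool.Agent.Results.MP_a14ce1_nt.SparseShortLengths

open Finset
open ArithmeticFunction (cardFactors)
open Pool.Agent.U108.DP (Bo val)

/-- The polynomial `F` at the points of the part `A` of a digit box: for every variable `j` and `i < k` the set `D j i` consists
of at least two digits in base `b`; `F` has degree at most `d` and some coefficient of degree `d` which is not zero and at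
most `B` in absolute value; `A` contains at least the share `1 / B` of the box `Bo b k D`; and `|F| ≤ B b ^ (d k)` on `A`. -/
structure Normal (b d B : ℕ) {J : Type} [Fintype J] [DecidableEq J] (k : ℕ) (D : J → ℕ → Finset ℕ)
    (F : MvPolynomial J ℤ) (A : Finset (J → ℕ)) : Prop where
  digits : ∀ j, ∀ i < k, D j i ⊆ range b ∧ 2 ≤ (D j i).card
  degree : F.totalDegree ≤ d
  top : ∃ m : J →₀ ℕ, m.degree = d ∧ F.coeff m ≠ 0 ∧ |F.coeff m| ≤ B
  part : A ⊆ Bo b k D ∧ (Bo b k D).card ≤ B * A.card
  values : ∀ n ∈ A, |val F n| ≤ B * (b : ℤ) ^ (d * k)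

/-- The product of the values `λ(a (n + j) + c)` of the Liouville function over the `j` in the blocks `h i ≤ j < e i`, `i < r`. For
`r = 1`, `h = 0`, `e = K`, `a = 1` and `c = 0` it is `λ(n) λ(n + 1) ⋯ λ(n + K - 1)`. -/
noncomputable def blocks (a c : ℕ) {r : ℕ} (h e : Fin r → ℕ) (n : ℕ) : ℝ :=
  ∏ i, ∏ j ∈ Ico (h i) (e i), (-1 : ℝ) ^ cardFactors (a * (n + j) + c)

/-- Half of the trivial bound: for all `l` such that `h l i ≤ e i` for all `i`, all progressions `a n + c` with `1 ≤ a ≤ B` and
`0 ≤ c ≤ B` and all `Y ≤ X ≤ N`, the sum over `Y < n ≤ X` of `ξ l n` times the product over the blocks from `h l i` to `e i` is at most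
`(X - Y) / 2 + ε N` in absolute value. -/
def Half (ε : ℝ) (B N : ℕ) {r L : ℕ} (ξ : Fin L → ℕ → ℂ) (h : Fin L → Fin r → ℕ) (e : Fin r → ℕ) : Prop :=
  ∀ l, (∀ i, h l i ≤ e i) → ∀ a c : ℕ, 1 ≤ a → a ≤ B → c ≤ B → ∀ Y X : ℕ, Y ≤ X → X ≤ N →
    ‖∑ n ∈ Ioc Y X, ξ l n * (blocks a c (h l) e n : ℂ)‖ ≤ ((X : ℝ) - Y) / 2 + ε * N

/-- `Half` for ALL the vectors `e` of natural numbers with `|e_i - F_i(u_i)| ≤ B`. -/
def Good (ε : ℝ) (B N : ℕ) {r L : ℕ} (ξ : Fin L → ℕ → ℂ) (h : Fin L → Fin r → ℕ) {J : Fin r → Type}
    (F : ∀ i, MvPolynomial (J i) ℤ) (u : ∀ i, J i → ℕ) : Prop :=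
  ∀ e : Fin r → ℕ, (∀ i, |(e i : ℤ) - val (F i) (u i)| ≤ B) → Half ε B N ξ h e

open Classical in
/-- **Products of the Liouville function over blocks of consecutive integers, for almost all lengths in sparse sets in bounded
ranges.** Let `r ≥ 1`, `L`, bases `b_i ≥ 2`, degrees `d_i ≥ 2`, `B` and `ε > 0` be fixed. There are `k₀` and `N₀` such that for all
`K_i ≥ k₀`, ALL polynomials `F_i` in any numbers of variables, digit sets `D_i` and parts `A_i` with
`Normal (b i) (d i) B (K i) (D i) (F i) (A i)`, all functions `ξ_1, …, ξ_L` with `|ξ_l| ≤ 1` and all vectors `h_1, …, h_L` of initial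
points:
(1) for EVERY `N ≥ N₀` such that `b_i ^ (d_i K_i) ≤ N` for all `i`, all the vectors `u`, `u_i ∈ A_i`, apart from a proportion of at most
`ε`, have the property `Good ε B N ξ h F u`;
(2) (fixed `u`) there is an exceptional set `E` of a proportion of at most `ε` such that for arbitrarily large `R`, all the vectors `u`
outside of `E` have the property `Good ε B N ξ h F u` for at least `(1 - ε) R` of the `N ≤ R`.

In particular (`r = 1`, `ξ = 1`, `h = 0`): for all but a proportion `ε` of the `u`, the sum `S_K` of the problem for the FIXED length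
`K = F(u)` satisfies `|S_K(N)| ≤ (1 / 2 + ε) N` for the `N` in a set of upper density at least `1 - ε`. -/
theorem result (r L B : ℕ) (hr : 1 ≤ r) (b d : Fin r → ℕ) (hb : ∀ i, 2 ≤ b i) (hd : ∀ i, 2 ≤ d i) (ε : ℝ) (hε : 0 < ε) :
    ∃ k₀ N₀ : ℕ, ∀ K : Fin r → ℕ, (∀ i, k₀ ≤ K i) →
      ∀ (J : Fin r → Type) [∀ i, Fintype (J i)] [∀ i, DecidableEq (J i)] (D : ∀ i, J i → ℕ → Finset ℕ)
      (F : ∀ i, MvPolynomial (J i) ℤ) (A : ∀ i, Finset (J i → ℕ)), (∀ i, Normal (b i) (d i) B (K i) (D i) (F i) (A i)) →
      ∀ ξ : Fin L → ℕ → ℂ, (∀ l n, ‖ξ l n‖ ≤ 1) → ∀ h : Fin L → Fin r → ℕ,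
      (∀ N : ℕ, N₀ ≤ N → (∀ i, b i ^ (d i * K i) ≤ N) →
        ∃ E ⊆ Fintype.piFinset A, (E.card : ℝ) ≤ ε * ∏ i, ((A i).card : ℝ) ∧
          ∀ u ∈ Fintype.piFinset A, u ∉ E → Good ε B N ξ h F u) ∧
      ∃ E ⊆ Fintype.piFinset A, (E.card : ℝ) ≤ ε * ∏ i, ((A i).card : ℝ) ∧
        ∃ᶠ R : ℕ in Filter.atTop, ∀ u ∈ Fintype.piFinset A, u ∉ E →
          (1 - ε) * R ≤ ((Icc 1 R).filter (fun N => Good ε B N ξ h F u)).card := by
  obtain ⟨k₁, N₁, h1⟩ := Pool.Agent.U108.SW.lengths1 r L B hr b d hb hd ε hε
  obtain ⟨k₂, h2⟩ := Pool.Agent.U108.SW.lengths2 r L B hr b d hb hd ε hε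
  refine ⟨k₁ + k₂, N₁, fun K hK J _ _ D F A hA ξ hξ h => ⟨fun N hN hbN => ?_, ?_⟩⟩
  · exact h1 N hN K (fun i => ⟨by have := hK i; omega, hbN i⟩) J D F A
      (fun i => ⟨(hA i).digits, (hA i).degree, (hA i).top, (hA i).part, (hA i).values⟩) ξ hξ h
  · exact h2 K (fun i => by have := hK i; omega) J D F A
      (fun i => ⟨(hA i).digits, (hA i).degree, (hA i).top, (hA i).part, (hA i).values⟩) ξ hξ h

end Pool.Agent.Results.MP_a14ce1_nt.SparseShortLengths
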