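import Pool.Agent.U308.VL.Half

/-!
# Products of `k` consecutive values of the Liouville function, for all the lengths `k` near almost all very smooth numbers

From Mathlib: `ArithmeticFunction.cardFactors n`: the number of the prime factors of `n` with multiplicity;
`Finset.Ioc Y X`: the integers `n` with `Y < n ≤ X`; `Finset.Icc 1 N`: the integers from `1` to `N`; `v.primeFactors`: the
set of the prime factors of `v`.

Method (helper308). The product `P(n)` of the values at `n, ..., n + k - 1` satisfies `P(n) P(n + 1) = λ(n) λ(n + k)` (starting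
files, `Pool.Agent.TH893.CL`), so that half of the trivial bound for `P` follows from the correlations of `λ(n + k)` with
arbitrary functions. Below `log ^ 2 N` the exponential sum over the `y`-smooth integers (or the integers composed of primes from
a thin set `P`) cannot be bounded by the usual bilinear argument. It is replaced by a weight `w(v)`, the number of the
representations `v = m₁ m₂ u`, where `m₁` and `m₂` are products of `h` different primes from one dyadic class of `P`, and
`u` is composed of primes from `P`: the weighted exponential sum is small except near few rational numbers with small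
denominators, and `w(v)` is at least `1 / log N` of its mean value for almost all `v` (`Pool.Agent.U308.SH`,
`Pool.Agent.U308.SG`, `Pool.Agent.U308.TL`). The second moment argument for correlations is from the starting files.
-/

set_option autoImplicit false

namespace Pool.Agent.Results.MP_a14ce1_nt.VerySmoothLengths

open Finset

/-- The product `λ(a n + d) λ(a (n + 1) + d) ... λ(a (n + k - 1) + d)` of the values of the Liouville function at
`k` consecutive terms of a progression. For `a = 1` and `d = 0` it is `λ(n) λ(n + 1) ... λ(n + k - 1)`. -/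
noncomputable def prodL (a d k n : ℕ) : ℝ := ∏ j ∈ range k, (-1 : ℝ) ^ ArithmeticFunction.cardFactors (a * (n + j) + d)

/-- The length `k` is good: for all the weights `ξ l` and all the intervals `Y < n ≤ X` with `X ≤ B N`, the sum of the
products of `k` consecutive values with the weights `ξ l` is at most half of the length of the interval, up to `η`. -/
def Half (a d B N : ℕ) (η : ℝ) {L : ℕ} (ξ : Fin L → ℕ → ℂ) (k : ℕ) : Prop :=
  ∀ l, ∀ Y X : ℕ, Y ≤ X → X ≤ B * N → ‖∑ n ∈ Ioc Y X, ξ l n * (prodL a d k n : ℂ)‖ ≤ ((X : ℝ) - Y) / 2 + η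

/-- The integers `1 ≤ v ≤ N` all of whose prime factors belong to `P`. -/
def composedOf (P : Finset ℕ) (N : ℕ) : Finset ℕ := (Icc 1 N).filter fun v => v.primeFactors ⊆ P

/-- The `y`-smooth integers `1 ≤ v ≤ N`: the integers all of whose prime factors are at most `y`. -/
def smooth (y N : ℕ) : Finset ℕ := (Icc 1 N).filter fun v => ∀ p ∈ v.primeFactors, p ≤ y

/-- Some length `k ≥ 0` with `|k - z| ≤ log ^ A N` is not good up to `N / log ^ U N`. -/
def Bad (a d B N A U : ℕ) {L : ℕ} (ξ : Fin L → ℕ → ℂ) (z : ℤ) : Prop :=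
  ∃ k : ℕ, |(((k : ℤ) - z : ℤ) : ℝ)| ≤ Real.log N ^ A ∧ ¬ Half a d B N (N / Real.log N ^ U) ξ k

open Classical in
/-- Let `a ≥ 1`, `A`, `T`, `U`, `K`, `B`, the integer `κ ≠ 0` and `δ > 0` be fixed, let `N` be large, `y ≤ log ^ K N`, let `c`
and `0 ≤ d ≤ B N` be arbitrary integers with `|c| ≤ B N`, and let `ξ l : ℕ → ℂ` be at most `log ^ T N` arbitrary functions
bounded by `1`.

(1) Let `P` be an arbitrary set of primes which are at most `y`, with at least `y ^ (1 / 2 + δ)` and at least `log ^ (1 + δ) N`
elements. Then for all the integers `v ≤ N` composed of primes from `P`, up to a proportion of at most `1 / log ^ U N` of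
them, ALL the lengths `k ≥ 0` with `|k - (c + κ v)| ≤ log ^ A N` have the following property: for all `l` and all the
intervals `I = (Y, X]` with `X ≤ B N`,
`|∑_{n ∈ I} ξ l n * λ(a n + d) λ(a (n + 1) + d) ... λ(a (n + k - 1) + d)| ≤ |I| / 2 + N / log ^ U N`.
(There can be fewer than `N ^ δ` such integers `v`.)

(2) In particular this holds for all the `y`-smooth integers `v ≤ N`, up to a proportion of at most `1 / log ^ U N` of them,
if `y ≥ log ^ (1 + δ) N`.

In particular (`ξ = 1`, `a = 1`, `d = 0`, `Y = 0`) the sums `S_k(X)` of the problem satisfy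
`|S_k(X)| ≤ X / 2 + N / log ^ U N` for all `X ≤ B N`. -/
theorem result (a : ℕ) (ha : 1 ≤ a) (A T U K B : ℕ) (κ : ℤ) (hκ : κ ≠ 0) (δ : ℝ) (hδ : 0 < δ) :
    ∃ N₀ : ℕ, ∀ N, N₀ ≤ N → ∀ y : ℕ, (y : ℝ) ≤ Real.log N ^ K → ∀ c : ℤ, |c| ≤ B * N → ∀ d : ℕ, d ≤ B * N →
      ∀ L : ℕ, (L : ℝ) ≤ Real.log N ^ T → ∀ ξ : Fin L → ℕ → ℂ, (∀ l n, ‖ξ l n‖ ≤ 1) →
      (∀ P : Finset ℕ, (∀ p ∈ P, p.Prime ∧ p ≤ y) → (y : ℝ) ^ (1 / 2 + δ) ≤ P.card → Real.log N ^ (1 + δ) ≤ P.card →
        (((composedOf P N).filter fun v : ℕ => Bad a d B N A U ξ (c + κ * v)).card : ℝ) ≤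
          ((composedOf P N).card : ℝ) / Real.log N ^ U) ∧
      (Real.log N ^ (1 + δ) ≤ y →
        (((smooth y N).filter fun v : ℕ => Bad a d B N A U ξ (c + κ * v)).card : ℝ) ≤
          ((smooth y N).card : ℝ) / Real.log N ^ U) := by
  obtain ⟨N₀, h0⟩ := Pool.Agent.U308.VL.sm_half2 a ha κ hκ K B A T U δ hδ
  refine ⟨N₀, fun N hN y hy c hc d hd L hL ξ hξ => ?_⟩
  exact h0 N hN y hy c d L ξ hc hd hL hξ

end Pool.Agent.Results.MP_a14ce1_nt.VerySmoothLengths
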